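import Pool.Agent.V11307.RI.S216
import Pool.Agent.V11307.RI.S2304

set_option autoImplicit false

/-!
# Integrality of the normalised partial sums for `(6k+1)/216^k` and `(8k+1)/2304^k`
-/

namespace Pool.Agent.Results.MP_e1e815_nt.Full

open Finset Nat

/-- `a_n` -/
def a (n : ℕ) : ℚ := 1 / ((n : ℚ) * (2 * n + 1) * ((2 * n).choose n : ℚ)) *
  ∑ j ∈ range n, 216 ^ (n - 1 - j) * (6 * (j : ℚ) + 1) * ((2 * j).choose j : ℚ) ^ 2 * ((3 * j).choose j : ℚ)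

/-- `b_n` -/
def b (n : ℕ) : ℚ := 1 / (2 * (n : ℚ) * (2 * n + 1) * ((2 * n).choose n : ℚ)) *
  ∑ j ∈ range n, 2304 ^ (n - 1 - j) * (8 * (j : ℚ) + 1) * (((4 * j)! : ℚ) / (j ! : ℚ) ^ 4)

open V11307.RI

/-- **Full answer.** -/
theorem result : ∀ n : ℕ, 1 < n →
    ((∀ m : ℕ, 2 * n + 1 ≠ 3 ^ m) → (∃ z : ℤ, a n = z) ∧ (∃ z : ℤ, b n = z)) ∧
    (∀ m : ℕ, 2 * n + 1 = 3 ^ m → (∃ z : ℤ, 3 * a n = z ∧ ¬ 3 ∣ z) ∧ (∃ z : ℤ, 3 * b n = z ∧ ¬ 3 ∣ z)) := by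
  intro n hn
  obtain ⟨K, rfl⟩ : ∃ K, n = K + 1 := ⟨n - 1, by omega⟩
  have hD : (D K : ℚ) ≠ 0 := by exact_mod_cast (D_pos K).ne'
  have h2 := D_q' K
  have hqa : a (K + 1) * ((2 * D K : ℕ) : ℚ) = S216.S (K + 1) := by
    rw [a, h2]
    unfold S216.S
    push_cast
    field_simp
  have hqb : b (K + 1) * ((4 * D K : ℕ) : ℚ) = S2304.S (K + 1) := by
    have h3 : 2 * ((K + 1 : ℕ) : ℚ) * (2 * ((K + 1 : ℕ) : ℚ) + 1) * ((2 * (K + 1)).choose (K + 1) : ℚ) =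
        4 * (D K : ℚ) := by linear_combination 2 * h2
    rw [b, h3]
    unfold S2304.S
    push_cast
    simp only [← c4_eq]
    field_simp
  obtain ⟨e, he⟩ := main3 (m := 216) (a := 6) (b := 1) (α := 3) (by norm_num) (by norm_num) (S := S216.S)
    (by simp [S216.S]) S216.S_succ S216.six (n := K) (by omega)
  obtain ⟨e', he'⟩ := main4 (m := 2304) (a := 8) (b := 1) (α := 8) (by norm_num) (by norm_num) (S := S2304.S)
    (by simp [S2304.S]) S2304.S_succ S2304.six (n := K) (by omega)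
  obtain ⟨p1, p2⟩ := final_q good3_c3 (m := 216) (a := 6) (b := 1) (by norm_num) (by norm_num) (S := S216.S)
    (by simp [S216.S]) S216.S_succ (κ := 2) (by norm_num) (K := K) (e := e) he hqa
  obtain ⟨q1, q2⟩ := final_q good3_c4 (m := 2304) (a := 8) (b := 1) (by norm_num) (by norm_num) (S := S2304.S)
    (by simp [S2304.S]) S2304.S_succ (κ := 4) (by norm_num) (K := K) (e := e') he' hqb
  exact ⟨fun h => ⟨p1 fun t ht => h t (by omega), q1 fun t ht => h t (by omega)⟩,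
    fun t ht => ⟨p2 t (by omega), q2 t (by omega)⟩⟩

end Pool.Agent.Results.MP_e1e815_nt.Full
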